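import Pool.Graph.R_seed8.Results.MP_c45a97_an.UniformMeasures

/-!
# Basics on the Bergman operator of a measure, and compact operators near the boundary
-/

set_option autoImplicit false

open MeasureTheory Set Filter
open scoped ENNReal Topology InnerProductSpace

namespace Pool.Agent.KS6_66.EN

noncomputable section

open Pool.Agent.Y308.BQ

theorem nrm_eq (μ : Measure ℂ) (F : ℂ → ℂ) : nrm μ F = eLpNorm F 2 μ := by
  unfold nrm
  rw [eLpNorm_eq_lintegral_rpow_enorm_toReal two_ne_zero ENNReal.ofNat_ne_top]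
  simp

/-- The points of height at most `t`. -/
def low (t : ℝ) : Set ℂ := {z | 1 - ‖z‖ ≤ t}

theorem measurableSet_low (t : ℝ) : MeasurableSet (low t) :=
  measurableSet_le (measurable_const.sub measurable_norm) measurable_const

theorem low_mono {s t : ℝ} (h : s ≤ t) : low s ⊆ low t := fun _ hz => le_trans hz h

theorem low_small {μ : Measure ℂ} [IsFiniteMeasure μ] (hμ : μ (Metric.ball (0 : ℂ) 1)ᶜ = 0)
    {ε : ℝ≥0∞} (hε : 0 < ε) : ∃ δ : ℝ, 0 < δ ∧ ∀ t ≤ δ, μ (low t) ≤ ε := by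
  set A : ℕ → Set ℂ := fun n => low (1 / ((n : ℝ) + 1)) with hA
  have hanti : Antitone A := by
    intro m n hmn
    refine low_mono ?_
    have : (m : ℝ) ≤ n := by exact_mod_cast hmn
    gcongr
  have h1 : Tendsto (μ ∘ A) atTop (𝓝 (μ (⋂ n, A n))) :=
    tendsto_measure_iInter_atTop (fun n => (measurableSet_low _).nullMeasurableSet) hanti
      ⟨0, measure_ne_top _ _⟩
  have h2 : μ (⋂ n, A n) = 0 := by
    refine measure_mono_null (fun z hz => ?_) hμ
    simp only [mem_compl_iff, Metric.mem_ball, dist_zero_right, not_lt]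
    by_contra hc
    rw [not_le] at hc
    obtain ⟨n, hn⟩ := exists_nat_one_div_lt (sub_pos.mpr hc)
    have := mem_iInter.mp hz n
    simp only [hA, low, mem_ofPred_eq] at this
    linarith
  rw [h2] at h1
  obtain ⟨n, hn⟩ := (h1.eventually (ge_mem_nhds hε)).exists
  exact ⟨1 / ((n : ℝ) + 1), by positivity, fun t ht => (measure_mono (low_mono ht)).trans hn⟩

/-- lower bound for the denominator -/
theorem den_lower {z ζ : ℂ} (hζ : ‖ζ‖ < 1) :
    1 - ‖z‖ ≤ ‖1 - z * (starRingEnd ℂ) ζ‖ := by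
  have h1 : ‖z * (starRingEnd ℂ) ζ‖ ≤ ‖z‖ := by
    rw [norm_mul, RCLike.norm_conj]
    exact mul_le_of_le_one_right (norm_nonneg _) hζ.le
  have h2 := norm_sub_norm_le (1 : ℂ) (z * (starRingEnd ℂ) ζ)
  rw [norm_one] at h2
  linarith

theorem meas_kernel (z : ℂ) : Measurable fun ζ : ℂ => (1 - z * (starRingEnd ℂ) ζ) ^ 2 := by
  have : Continuous fun ζ : ℂ => (1 - z * (starRingEnd ℂ) ζ) ^ 2 := by fun_prop
  exact this.measurable

theorem integrable_kernel {μ : Measure ℂ} (hμ : μ (Metric.ball (0 : ℂ) 1)ᶜ = 0)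
    {f : ℂ → ℂ} (hf : Integrable f μ) {z : ℂ} (hz : ‖z‖ < 1) :
    Integrable (fun ζ => f ζ / (1 - z * (starRingEnd ℂ) ζ) ^ 2) μ := by
  have h0 : 0 < 1 - ‖z‖ := sub_pos.mpr hz
  refine (hf.norm.const_mul ((1 - ‖z‖) ^ 2)⁻¹).mono' ?_ ?_
  · exact (hf.1.aemeasurable.div (meas_kernel z).aemeasurable).aestronglyMeasurable
  · filter_upwards [ae_disc hμ] with ζ hζ
    rw [norm_div, norm_pow, div_eq_mul_inv, mul_comm]
    gcongr
    exact den_lower hζ

theorem PM_add {μ : Measure ℂ} (hμ : μ (Metric.ball (0 : ℂ) 1)ᶜ = 0)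
    {f g : ℂ → ℂ} (hf : Integrable f μ) (hg : Integrable g μ) {z : ℂ} (hz : ‖z‖ < 1) :
    PM μ (fun ζ => f ζ + g ζ) z = PM μ f z + PM μ g z := by
  unfold PM
  rw [← integral_add (integrable_kernel hμ hf hz) (integrable_kernel hμ hg hz)]
  refine integral_congr_ae (Eventually.of_forall fun ζ => ?_)
  exact add_div _ _ _

theorem PM_smul (μ : Measure ℂ) (c : ℂ) (f : ℂ → ℂ) (z : ℂ) :
    PM μ (fun ζ => c * f ζ) z = c * PM μ f z := by
  unfold PM
  rw [← integral_const_mul]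
  refine integral_congr_ae (Eventually.of_forall fun ζ => ?_)
  exact mul_div_assoc _ _ _

theorem PM_congr {μ : Measure ℂ} {f g : ℂ → ℂ} (h : f =ᵐ[μ] g) (z : ℂ) : PM μ f z = PM μ g z := by
  unfold PM
  refine integral_congr_ae ?_
  filter_upwards [h] with ζ hζ
  rw [hζ]

theorem PM_restrict (μ : Measure ℂ) {A : Set ℂ} (hA : MeasurableSet A) (f : ℂ → ℂ) (z : ℂ) :
    PM (μ.restrict A) f z = PM μ (A.indicator f) z := by
  unfold PM
  rw [← integral_indicator hA]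
  refine integral_congr_ae (Eventually.of_forall fun ζ => ?_)
  by_cases h : ζ ∈ A
  · simp [indicator_of_mem h]
  · simp [indicator_of_notMem h]

theorem PM_meas {μ : Measure ℂ} [SFinite μ] {f : ℂ → ℂ} (hf : AEStronglyMeasurable f μ) :
    StronglyMeasurable (PM μ f) := by
  have h1 : PM μ f = PM μ (hf.mk f) := by
    funext z
    exact PM_congr hf.ae_eq_mk z
  rw [h1]
  have hm : Measurable (hf.mk f) := hf.stronglyMeasurable_mk.measurable
  have h2 : Measurable fun p : ℂ × ℂ => hf.mk f p.2 / (1 - p.1 * (starRingEnd ℂ) p.2) ^ 2 := by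
    refine (hm.comp measurable_snd).div ?_
    have : Continuous fun p : ℂ × ℂ => (1 - p.1 * (starRingEnd ℂ) p.2) ^ 2 := by fun_prop
    exact this.measurable
  exact h2.stronglyMeasurable.integral_prod_right'

theorem nrm_restrict (μ : Measure ℂ) {A : Set ℂ} (hA : MeasurableSet A) (F : ℂ → ℂ) :
    nrm (μ.restrict A) F = nrm μ (A.indicator F) := by
  rw [nrm_eq, nrm_eq, eLpNorm_indicator_eq_eLpNorm_restrict hA]

theorem nrm_indicator_le (μ : Measure ℂ) (A : Set ℂ) (F : ℂ → ℂ) :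
    nrm μ (A.indicator F) ≤ nrm μ F := by
  rw [nrm_eq, nrm_eq]
  exact eLpNorm_indicator_le _

theorem nrm_indicator_one (μ : Measure ℂ) {A : Set ℂ} (hA : MeasurableSet A) :
    nrm μ (A.indicator 1) = μ A ^ (1 / 2 : ℝ) := by
  rw [nrm_eq]
  have : (A.indicator 1 : ℂ → ℂ) = A.indicator (fun _ => (1 : ℂ)) := rfl
  rw [this, eLpNorm_indicator_const hA two_ne_zero ENNReal.ofNat_ne_top]
  simp

/-- `‖f‖_{L¹} ≤ c ‖f‖_{L²}` -/
theorem L1_le (μ : Measure ℂ) [IsFiniteMeasure μ] : ∃ c : ℝ, 0 ≤ c ∧ ∀ f : Lp ℂ 2 μ,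
    Integrable f μ ∧ ∫ x, ‖f x‖ ∂μ ≤ c * ‖f‖ := by
  refine ⟨(μ univ ^ (1 / 2 : ℝ)).toReal, ENNReal.toReal_nonneg, fun f => ?_⟩
  have h2 : MemLp f 2 μ := Lp.memLp f
  have h1 : Integrable f μ := h2.integrable one_le_two
  refine ⟨h1, ?_⟩
  have h3 := eLpNorm_le_eLpNorm_mul_rpow_measure_univ (p := 1) (q := 2) (μ := μ) one_le_two h2.1
  have h4 : (1 / (1 : ℝ≥0∞).toReal - 1 / (2 : ℝ≥0∞).toReal) = 1 / 2 := by norm_num
  rw [h4] at h3
  have h5 : ∫ x, ‖f x‖ ∂μ = (eLpNorm f 1 μ).toReal := by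
    rw [eLpNorm_one_eq_lintegral_enorm, integral_norm_eq_lintegral_enorm h2.1]
  rw [h5, mul_comm, Lp.norm_def, ← ENNReal.toReal_mul]
  refine ENNReal.toReal_mono ?_ h3
  exact ENNReal.mul_ne_top (Lp.eLpNorm_ne_top f)
    (ENNReal.rpow_ne_top_of_nonneg (by norm_num) (measure_ne_top _ _))

theorem ofReal_norm_eq (μ : Measure ℂ) (f : Lp ℂ 2 μ) : ENNReal.ofReal ‖f‖ = eLpNorm f 2 μ := by
  rw [Lp.norm_def, ENNReal.ofReal_toReal (Lp.eLpNorm_ne_top f)]

/-- images of bounded sets under compact operators are uniformly small near the boundary -/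
theorem compact_low {E : Type*} [NormedAddCommGroup E] [NormedSpace ℂ E] {μ : Measure ℂ}
    [IsFiniteMeasure μ] (hμ : μ (Metric.ball (0 : ℂ) 1)ᶜ = 0) (S : E →L[ℂ] Lp ℂ 2 μ)
    (hS : IsCompactOperator S) {ε : ℝ} (hε : 0 < ε) :
    ∃ δ : ℝ, 0 < δ ∧ ∀ t ≤ δ, ∀ f : E,
      eLpNorm ((low t).indicator (S f)) 2 μ ≤ ENNReal.ofReal (ε * ‖f‖) := by
  have hc : IsCompact (closure (S '' Metric.closedBall 0 1)) :=
    IsCompactOperator.isCompact_closure_image_closedBall (f := (S : E →ₗ[ℂ] Lp ℂ 2 μ)) hS 1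
  obtain ⟨N, hN, hcov⟩ := Metric.totallyBounded_iff.mp hc.totallyBounded (ε / 2) (by positivity)
  have h1 : ∀ y ∈ N, ∀ᶠ δ in 𝓝[>] (0 : ℝ), ∀ t ≤ δ,
      eLpNorm ((low t).indicator y) 2 μ ≤ ENNReal.ofReal (ε / 2) := by
    intro y _
    obtain ⟨η, hη, h2⟩ := (Lp.memLp y).eLpNorm_indicator_le one_le_two ENNReal.ofNat_ne_top
      (show (0 : ℝ) < ε / 2 by positivity)
    obtain ⟨δ, hδ, h3⟩ := low_small hμ (ENNReal.ofReal_pos.mpr hη)
    filter_upwards [Ioo_mem_nhdsGT hδ] with x hx t ht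
    exact h2 _ (measurableSet_low t) (h3 t (ht.trans hx.2.le))
  have h2 := (eventually_all_finite hN).mpr h1
  obtain ⟨δ, hδ1, hδ2⟩ := (h2.and self_mem_nhdsWithin).exists
  refine ⟨δ, hδ2, ?_⟩
  have key : ∀ t ≤ δ, ∀ f : E, ‖f‖ ≤ 1 →
      eLpNorm ((low t).indicator (S f)) 2 μ ≤ ENNReal.ofReal ε := by
    intro t ht f hf
    have h3 : S f ∈ closure (S '' Metric.closedBall 0 1) :=
      subset_closure ⟨f, by simpa using hf, rfl⟩
    obtain ⟨y, hy, h4⟩ := mem_iUnion₂.mp (hcov h3)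
    rw [Metric.mem_ball, dist_eq_norm] at h4
    have h5 : eLpNorm ((low t).indicator (S f)) 2 μ ≤
        eLpNorm ((low t).indicator (S f - y : Lp ℂ 2 μ)) 2 μ +
          eLpNorm ((low t).indicator y) 2 μ := by
      have h6 : (low t).indicator (S f) =ᵐ[μ]
          (low t).indicator (S f - y : Lp ℂ 2 μ) + (low t).indicator y := by
        filter_upwards [Lp.coeFn_sub (S f) y] with x hx
        by_cases h : x ∈ low t
        · rw [Pi.add_apply, indicator_of_mem h, indicator_of_mem h, indicator_of_mem h, hx,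
            Pi.sub_apply]
          ring
        · simp [indicator_of_notMem h]
      rw [eLpNorm_congr_ae h6]
      exact eLpNorm_add_le ((Lp.aestronglyMeasurable _).indicator (measurableSet_low t))
        ((Lp.aestronglyMeasurable _).indicator (measurableSet_low t)) one_le_two
    refine h5.trans ?_
    have h7 : eLpNorm ((low t).indicator (S f - y : Lp ℂ 2 μ)) 2 μ ≤ ENNReal.ofReal (ε / 2) := by
      refine (eLpNorm_indicator_le _).trans ?_
      rw [← ofReal_norm_eq]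
      exact ENNReal.ofReal_le_ofReal h4.le
    refine (add_le_add h7 (hδ1 y hy t ht)).trans ?_
    rw [← ENNReal.ofReal_add (by positivity) (by positivity)]
    exact ENNReal.ofReal_le_ofReal (by linarith)
  intro t ht f
  by_cases hf : f = 0
  · subst hf
    have : (low t).indicator (S (0 : E)) =ᵐ[μ] 0 := by
      rw [map_zero]
      filter_upwards [Lp.coeFn_zero ℂ 2 μ] with x hx
      by_cases h : x ∈ low t
      · rw [indicator_of_mem h, hx]
      · rw [indicator_of_notMem h]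
        rfl
    rw [eLpNorm_congr_ae this]
    simp
  · have hn : 0 < ‖f‖ := norm_pos_iff.mpr hf
    set g : E := ((‖f‖ : ℂ)⁻¹) • f with hg
    have hg1 : ‖g‖ ≤ 1 := by
      rw [hg, norm_smul, norm_inv, Complex.norm_real, norm_norm, inv_mul_cancel₀ hn.ne']
    have hfg : f = (‖f‖ : ℂ) • g := by
      rw [hg, smul_smul, mul_inv_cancel₀ (by exact_mod_cast hn.ne'), one_smul]
    have h8 : (low t).indicator (S f) =ᵐ[μ] (‖f‖ : ℂ) • (low t).indicator (S g) := by
      have e : S f = (‖f‖ : ℂ) • S g := by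
        conv_lhs => rw [hfg]
        rw [map_smul]
      rw [e]
      filter_upwards [Lp.coeFn_smul (‖f‖ : ℂ) (S g)] with x hx
      by_cases h : x ∈ low t
      · rw [Pi.smul_apply, indicator_of_mem h, indicator_of_mem h, hx, Pi.smul_apply]
      · simp [indicator_of_notMem h]
    rw [eLpNorm_congr_ae h8, eLpNorm_const_smul, mul_comm ε,
      ENNReal.ofReal_mul (norm_nonneg _)]
    refine mul_le_mul' (le_of_eq ?_) (key t ht g hg1)
    rw [← ofReal_norm, Complex.norm_real, norm_norm]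

/-- a compact operator is small on the functions which live near the boundary -/
theorem compact_low' {F : Type*} [NormedAddCommGroup F] [InnerProductSpace ℂ F] [CompleteSpace F]
    {μ : Measure ℂ} [IsFiniteMeasure μ] (hμ : μ (Metric.ball (0 : ℂ) 1)ᶜ = 0)
    (S : Lp ℂ 2 μ →L[ℂ] F) (hS : IsCompactOperator S) {ε : ℝ} (hε : 0 < ε) :
    ∃ δ : ℝ, 0 < δ ∧ ∀ t ≤ δ, ∀ f : Lp ℂ 2 μ, (low t).indicator f =ᵐ[μ] f →
      ‖S f‖ ≤ ε * ‖f‖ := by
  set K : Lp ℂ 2 μ →L[ℂ] Lp ℂ 2 μ := (ContinuousLinearMap.adjoint S) ∘L S with hK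
  have hKc : IsCompactOperator K := hS.clm_comp (ContinuousLinearMap.adjoint S)
  obtain ⟨δ, hδ, h⟩ := compact_low hμ K hKc (show 0 < ε ^ 2 by positivity)
  refine ⟨δ, hδ, fun t ht f hf => ?_⟩
  have hm : MemLp ((low t).indicator (K f)) 2 μ := (Lp.memLp _).indicator (measurableSet_low t)
  set g : Lp ℂ 2 μ := hm.toLp _ with hg
  have hgn : ‖g‖ ≤ ε ^ 2 * ‖f‖ := by
    rw [hg, Lp.norm_toLp]
    exact ENNReal.toReal_le_of_le_ofReal (by positivity) (h t ht f)
  have h1 : ⟪K f, f⟫_ℂ = ⟪g, f⟫_ℂ := by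
    rw [L2.inner_def, L2.inner_def]
    refine integral_congr_ae ?_
    filter_upwards [hf, hm.coeFn_toLp] with x hx hgx
    rw [hgx]
    by_cases hxt : x ∈ low t
    · rw [indicator_of_mem hxt]
    · rw [indicator_of_notMem hxt] at hx ⊢
      rw [← hx]
      simp
  have h2 : ⟪K f, f⟫_ℂ = ⟪S f, S f⟫_ℂ := by
    rw [hK, ContinuousLinearMap.comp_apply, ContinuousLinearMap.adjoint_inner_left]
  have h3 : ‖S f‖ ^ 2 ≤ ε ^ 2 * ‖f‖ ^ 2 := by
    calc ‖S f‖ ^ 2 = ‖⟪S f, S f⟫_ℂ‖ := by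
          rw [inner_self_eq_norm_sq_to_K]
          simp
      _ = ‖⟪g, f⟫_ℂ‖ := by rw [← h2, h1]
      _ ≤ ‖g‖ * ‖f‖ := norm_inner_le_norm _ _
      _ ≤ (ε ^ 2 * ‖f‖) * ‖f‖ := by gcongr
      _ = ε ^ 2 * ‖f‖ ^ 2 := by ring
  rw [← mul_pow] at h3
  exact le_of_sq_le_sq' h3 (by positivity)
where
  le_of_sq_le_sq' {a b : ℝ} (h : a ^ 2 ≤ b ^ 2) (hb : 0 ≤ b) : a ≤ b :=
    le_of_sq_le_sq_aux h hb
  le_of_sq_le_sq_aux {a b : ℝ} (h : a ^ 2 ≤ b ^ 2) (hb : 0 ≤ b) : a ≤ b := by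
    nlinarith [abs_le_abs_of_sq h, le_abs_self a, abs_of_nonneg hb]
  abs_le_abs_of_sq {a b : ℝ} (h : a ^ 2 ≤ b ^ 2) : |a| ≤ |b| := sq_le_sq.mp h

end

end Pool.Agent.KS6_66.EN
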