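import Pool.Agent.KS6_66.EN.A

/-!
# Finite rank approximation away from the boundary
-/

set_option autoImplicit false

open MeasureTheory Set Filter
open scoped ENNReal Topology InnerProductSpace

namespace Pool.Agent.KS6_66.EN

noncomputable section

open Pool.Agent.Y308.BQ

theorem series_id (x : ℂ) (N : ℕ) :
    (1 - x) ^ 2 * ∑ n ∈ Finset.range N, ((n : ℂ) + 1) * x ^ n =
      1 - ((N : ℂ) + 1) * x ^ N + N * x ^ (N + 1) := by
  induction N with
  | zero => simp
  | succ N ih =>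
    rw [Finset.sum_range_succ, mul_add, ih]
    push_cast
    ring

theorem series_err {r ε : ℝ} (hr : 0 ≤ r) (hr1 : r < 1) (hε : 0 < ε) :
    ∃ N : ℕ, ∀ x : ℂ, ‖x‖ ≤ r →
      ‖1 / (1 - x) ^ 2 - ∑ n ∈ Finset.range N, ((n : ℂ) + 1) * x ^ n‖ ≤ ε := by
  have h1 : Tendsto (fun n : ℕ => (2 * ((n : ℝ) ^ 1 * r ^ n) + r ^ n) / (1 - r) ^ 2) atTop
      (𝓝 ((2 * 0 + 0) / (1 - r) ^ 2)) := by
    refine Tendsto.div_const (Tendsto.add (Tendsto.const_mul _ ?_) ?_) _
    · exact tendsto_pow_const_mul_const_pow_of_abs_lt_one 1 (by rwa [abs_of_nonneg hr])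
    · exact tendsto_pow_atTop_nhds_zero_of_lt_one hr hr1
  rw [mul_zero, add_zero, zero_div] at h1
  obtain ⟨N, hN⟩ := (h1.eventually (ge_mem_nhds hε)).exists
  refine ⟨N, fun x hx => ?_⟩
  have hx1 : ‖x‖ < 1 := lt_of_le_of_lt hx hr1
  have h2 : 1 - r ≤ ‖1 - x‖ := by
    have := norm_sub_norm_le (1 : ℂ) x
    rw [norm_one] at this
    linarith
  have h3 : 0 < 1 - r := sub_pos.mpr hr1
  have h4 : (1 - x) ≠ 0 := by
    intro h
    rw [h, norm_zero] at h2
    linarith
  have h5 : 1 / (1 - x) ^ 2 - ∑ n ∈ Finset.range N, ((n : ℂ) + 1) * x ^ n =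
      (((N : ℂ) + 1) * x ^ N - N * x ^ (N + 1)) / (1 - x) ^ 2 := by
    have h6 := series_id x N
    field_simp
    rw [h6]
    ring
  rw [h5, norm_div, norm_pow]
  have h6 : ‖((N : ℂ) + 1) * x ^ N - N * x ^ (N + 1)‖ ≤ 2 * ((N : ℝ) ^ 1 * r ^ N) + r ^ N := by
    refine (norm_sub_le _ _).trans ?_
    have e1 : ‖((N : ℂ) + 1) * x ^ N‖ ≤ ((N : ℝ) + 1) * r ^ N := by
      rw [norm_mul, norm_pow]
      have : ‖(N : ℂ) + 1‖ = (N : ℝ) + 1 := by
        have : ((N : ℂ) + 1) = ((N + 1 : ℕ) : ℂ) := by push_cast; rfl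
        rw [this, Complex.norm_natCast]
        push_cast
        rfl
      rw [this]
      gcongr
    have e2 : ‖(N : ℂ) * x ^ (N + 1)‖ ≤ (N : ℝ) * r ^ N := by
      rw [norm_mul, norm_pow, Complex.norm_natCast]
      have : ‖x‖ ^ (N + 1) ≤ r ^ N := by
        calc ‖x‖ ^ (N + 1) ≤ ‖x‖ ^ N := pow_le_pow_of_le_one (norm_nonneg _) hx1.le (Nat.le_succ N)
          _ ≤ r ^ N := by gcongr
      gcongr
    rw [pow_one]
    linarith
  refine le_trans ?_ hN
  gcongr

/-- Away from the boundary, in one of the two variables, the Bergman operator is a limit of operators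
of finite rank. -/
theorem approx {σ w : Measure ℂ} [IsFiniteMeasure σ] [IsFiniteMeasure w]
    (hσ : σ (Metric.ball (0 : ℂ) 1)ᶜ = 0) (hw : w (Metric.ball (0 : ℂ) 1)ᶜ = 0)
    {U V : Set ℂ} (hU : MeasurableSet U) (hV : MeasurableSet V) {r : ℝ} (hr : 0 ≤ r) (hr1 : r < 1)
    (hUV : ∀ z ∈ V, ∀ ζ ∈ U, ‖z‖ < 1 → ‖ζ‖ < 1 → ‖z‖ * ‖ζ‖ ≤ r) {ε : ℝ} (hε : 0 < ε) :
    ∃ S : Lp ℂ 2 σ →L[ℂ] Lp ℂ 2 w, IsCompactOperator S ∧ ∀ f : Lp ℂ 2 σ,
      ∀ᵐ z ∂w, ‖V.indicator (PM σ (U.indicator f)) z - S f z‖ ≤ ε * ‖f‖ := by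
  obtain ⟨c, hc, hL1⟩ := L1_le σ
  obtain ⟨N, hN⟩ := series_err hr hr1 (show 0 < ε / (c + 1) by positivity)
  have hu : ∀ n : ℕ, MemLp (U.indicator fun ζ : ℂ => ζ ^ n) 2 σ := by
    intro n
    refine MemLp.of_bound
      ((by fun_prop : Continuous fun ζ : ℂ => ζ ^ n).aestronglyMeasurable.indicator hU) 1 ?_
    filter_upwards [ae_disc hσ] with ζ hζ
    refine (norm_indicator_le_norm_self _ _).trans ?_
    rw [norm_pow]
    exact pow_le_one₀ (norm_nonneg _) hζ.le
  have hv : ∀ n : ℕ, MemLp (V.indicator fun ζ : ℂ => ζ ^ n) 2 w := by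
    intro n
    refine MemLp.of_bound
      ((by fun_prop : Continuous fun ζ : ℂ => ζ ^ n).aestronglyMeasurable.indicator hV) 1 ?_
    filter_upwards [ae_disc hw] with ζ hζ
    refine (norm_indicator_le_norm_self _ _).trans ?_
    rw [norm_pow]
    exact pow_le_one₀ (norm_nonneg _) hζ.le
  set R : ℕ → Lp ℂ 2 σ →L[ℂ] Lp ℂ 2 w := fun n =>
    ((n : ℂ) + 1) • (innerSL ℂ (hu n).toLp).smulRight (hv n).toLp with hR
  set S : Lp ℂ 2 σ →L[ℂ] Lp ℂ 2 w := ∑ n ∈ Finset.range N, R n with hS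
  have hRc : ∀ n, IsCompactOperator (R n) := by
    intro n
    have h1 : IsCompactOperator (ContinuousLinearMap.toSpanSingleton ℂ (hv n).toLp ∘
        (innerSL ℂ (hu n).toLp)) :=
      (isCompactOperator_of_locallyCompactSpace_dom (innerSL ℂ (hu n).toLp)).clm_comp _
    have h2 : (⇑(R n) : Lp ℂ 2 σ → Lp ℂ 2 w) = ((n : ℂ) + 1) •
        (ContinuousLinearMap.toSpanSingleton ℂ (hv n).toLp ∘ (innerSL ℂ (hu n).toLp)) := by
      funext f
      simp [hR]
    rw [h2]
    exact h1.smul _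
  refine ⟨S, ?_, ?_⟩
  · rw [hS]
    have : ∀ s : Finset ℕ, IsCompactOperator (⇑(∑ n ∈ s, R n) : Lp ℂ 2 σ → Lp ℂ 2 w) := by
      intro s
      induction s using Finset.induction_on with
      | empty =>
        rw [Finset.sum_empty]
        exact isCompactOperator_zero
      | insert a s ha ih =>
        rw [Finset.sum_insert ha]
        exact (hRc a).add ih
    exact this _
  · intro f
    obtain ⟨hfi, hf1⟩ := hL1 f
    have hSf : (S f : ℂ → ℂ) =ᵐ[w] fun z => ∑ n ∈ Finset.range N,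
        ((n : ℂ) + 1) * ((∫ ζ, U.indicator (fun ζ => (starRingEnd ℂ) ζ ^ n * f ζ) ζ ∂σ) *
          V.indicator (fun ζ : ℂ => ζ ^ n) z) := by
      have e1 : S f = ∑ n ∈ Finset.range N, R n f := by
        rw [hS, ContinuousLinearMap.sum_apply]
      rw [e1]
      refine (Lp.coeFn_finsetSum _ _).trans ?_
      have e2 : ∀ᵐ z ∂w, ∀ n : ℕ, (R n f : ℂ → ℂ) z = ((n : ℂ) + 1) *
          ((∫ ζ, U.indicator (fun ζ => (starRingEnd ℂ) ζ ^ n * f ζ) ζ ∂σ) *
          V.indicator (fun ζ : ℂ => ζ ^ n) z) := by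
        rw [ae_all_iff]
        intro n
        have e3 : ⟪(hu n).toLp, f⟫_ℂ =
            ∫ ζ, U.indicator (fun ζ => (starRingEnd ℂ) ζ ^ n * f ζ) ζ ∂σ := by
          rw [L2.inner_def]
          refine integral_congr_ae ?_
          filter_upwards [(hu n).coeFn_toLp] with ζ hζ
          rw [hζ]
          by_cases h : ζ ∈ U
          · rw [indicator_of_mem h, indicator_of_mem h]
            simp [mul_comm]
          · rw [indicator_of_notMem h, indicator_of_notMem h]
            simp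
        have e4 : R n f = ((n : ℂ) + 1) • (⟪(hu n).toLp, f⟫_ℂ • (hv n).toLp) := by
          simp [hR]
        rw [e4, e3]
        filter_upwards [Lp.coeFn_smul ((n : ℂ) + 1) ((∫ ζ, U.indicator
            (fun ζ => (starRingEnd ℂ) ζ ^ n * f ζ) ζ ∂σ) • (hv n).toLp),
          Lp.coeFn_smul (∫ ζ, U.indicator
            (fun ζ => (starRingEnd ℂ) ζ ^ n * f ζ) ζ ∂σ) (hv n).toLp, (hv n).coeFn_toLp]
          with z h1 h2 h3
        rw [h1, Pi.smul_apply, h2, Pi.smul_apply, h3, smul_eq_mul, smul_eq_mul]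
      filter_upwards [e2] with z hz
      rw [Finset.sum_apply]
      exact Finset.sum_congr rfl fun n _ => hz n
    filter_upwards [hSf, ae_disc hw] with z hz hz1
    rw [hz]
    by_cases hzV : z ∈ V
    · rw [indicator_of_mem hzV]
      have hint : ∀ n : ℕ, Integrable (U.indicator (fun ζ => (starRingEnd ℂ) ζ ^ n * f ζ)) σ := by
        intro n
        refine Integrable.indicator ?_ hU
        refine hfi.norm.mono' ?_ ?_
        · exact ((by fun_prop : Continuous fun ζ : ℂ =>
            (starRingEnd ℂ) ζ ^ n).aestronglyMeasurable).mul hfi.1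
        · filter_upwards [ae_disc hσ] with ζ hζ
          rw [norm_mul, norm_pow, RCLike.norm_conj]
          exact mul_le_of_le_one_left (norm_nonneg _) (pow_le_one₀ (norm_nonneg _) hζ.le)
      have e1 : PM σ (U.indicator f) z - ∑ n ∈ Finset.range N,
          ((n : ℂ) + 1) * ((∫ ζ, U.indicator (fun ζ => (starRingEnd ℂ) ζ ^ n * f ζ) ζ ∂σ) *
            V.indicator (fun ζ : ℂ => ζ ^ n) z) =
          ∫ ζ, (U.indicator f ζ / (1 - z * (starRingEnd ℂ) ζ) ^ 2 -
            ∑ n ∈ Finset.range N, ((n : ℂ) + 1) * z ^ n *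
              U.indicator (fun ζ => (starRingEnd ℂ) ζ ^ n * f ζ) ζ) ∂σ := by
        rw [integral_sub (integrable_kernel hσ (hfi.indicator hU) hz1)
          (integrable_finsetSum _ fun n _ => (hint n).const_mul _),
          integral_finsetSum _ fun n _ => (hint n).const_mul _]
        congr 1
        refine Finset.sum_congr rfl fun n _ => ?_
        rw [integral_const_mul, indicator_of_mem hzV]
        ring
      rw [e1]
      refine (norm_integral_le_of_norm_le (hfi.norm.const_mul (ε / (c + 1))) ?_).trans ?_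
      · filter_upwards [ae_disc hσ] with ζ hζ
        by_cases h : ζ ∈ U
        · rw [indicator_of_mem h]
          have e2 : f ζ / (1 - z * (starRingEnd ℂ) ζ) ^ 2 -
              ∑ n ∈ Finset.range N, ((n : ℂ) + 1) * z ^ n *
                U.indicator (fun ζ => (starRingEnd ℂ) ζ ^ n * f ζ) ζ =
              (1 / (1 - z * (starRingEnd ℂ) ζ) ^ 2 -
                ∑ n ∈ Finset.range N, ((n : ℂ) + 1) * (z * (starRingEnd ℂ) ζ) ^ n) * f ζ := by
            rw [sub_mul, Finset.sum_mul]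
            congr 1
            · ring
            · refine Finset.sum_congr rfl fun n _ => ?_
              rw [indicator_of_mem h, mul_pow]
              ring
          rw [e2, norm_mul]
          refine mul_le_mul_of_nonneg_right (hN _ ?_) (norm_nonneg _)
          rw [norm_mul, RCLike.norm_conj]
          exact hUV z hzV ζ h hz1 hζ
        · simp only [indicator_of_notMem h, zero_div, mul_zero, Finset.sum_const_zero, sub_zero,
            norm_zero]
          positivity
      · rw [integral_const_mul]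
        calc ε / (c + 1) * ∫ ζ, ‖f ζ‖ ∂σ ≤ ε / (c + 1) * (c * ‖f‖) := by gcongr
          _ = ε * ‖f‖ * (c / (c + 1)) := by ring
          _ ≤ ε * ‖f‖ * 1 := by
              gcongr
              rw [div_le_one (by positivity)]
              linarith
          _ = ε * ‖f‖ := mul_one _
    · simp only [indicator_of_notMem hzV, mul_zero, Finset.sum_const_zero, sub_zero, norm_zero]
      positivity

end

end Pool.Agent.KS6_66.EN
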