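import Pool.Agent.KS6_66.EN.B

/-!
# The Bergman operator between the `L²` spaces of two measures, its norm and its essential norm
-/

set_option autoImplicit false

open MeasureTheory Set Filter
open scoped ENNReal Topology InnerProductSpace

namespace Pool.Agent.KS6_66.EN

noncomputable section

open Pool.Agent.Helper807.BT Pool.Agent.Y308.BQ

/-- The part of the Carleson box over the arc `{e^{2 π i s} : a ≤ s < a + l}` of height at most
`t`. -/
def lbox (a l t : ℝ) : Set ℂ := {z | z ∈ box a l ∧ 1 - ‖z‖ ≤ t}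

/-- `‖P(1_R σ)‖_{L²(w)} ≤ C σ(R)^{1/2}` for the parts `R` of height at most `t ≤ δ` of all Carleson
boxes. -/
def FlatM (σ w : Measure ℂ) (δ C : ℝ) : Prop :=
  ∀ a l t : ℝ, 0 < l → l ≤ 1 → t ≤ δ →
    nrm w (PM σ ((lbox a l t).indicator 1)) ≤ ENNReal.ofReal C * σ (lbox a l t) ^ (1 / 2 : ℝ)

/-- `T` is the Bergman operator `f ↦ P(f σ)` from `L²(σ)` to `L²(w)`. -/
def IsBerg (σ w : Measure ℂ) (T : Lp ℂ 2 σ →L[ℂ] Lp ℂ 2 w) : Prop :=
  ∀ f : Lp ℂ 2 σ, (T f : ℂ → ℂ) =ᵐ[w] PM σ f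

/-- The essential norm: the distance to the compact operators. -/
def essNorm {σ w : Measure ℂ} (T : Lp ℂ 2 σ →L[ℂ] Lp ℂ 2 w) : ℝ :=
  Metric.infDist T {S : Lp ℂ 2 σ →L[ℂ] Lp ℂ 2 w | IsCompactOperator S}

theorem box_eq {a l : ℝ} (hl : 0 < l) (hl1 : l ≤ 1) :
    box a l = Metric.ball (0 : ℂ) 1 ∩ arcBox th ht a l := by
  ext z
  constructor
  · intro hz
    have h1 : ‖z‖ < 1 := hz.1
    exact ⟨by simpa using h1, (mem_box_iff hl hl1 h1).1 hz⟩
  · rintro ⟨h1, h2⟩
    exact (mem_box_iff hl hl1 (by simpa using h1)).2 h2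

theorem meas_box {a l : ℝ} (hl : 0 < l) (hl1 : l ≤ 1) : MeasurableSet (box a l) := by
  rw [box_eq hl hl1]
  exact measurableSet_ball.inter (meas_arcBox a l)

theorem lbox_eq (a l t : ℝ) : lbox a l t = box a l ∩ low t := rfl

theorem meas_lbox {a l t : ℝ} (hl : 0 < l) (hl1 : l ≤ 1) : MeasurableSet (lbox a l t) := by
  rw [lbox_eq]
  exact (meas_box hl hl1).inter (measurableSet_low t)

theorem lbox_ind (a l t : ℝ) :
    (low t).indicator ((box a l).indicator (1 : ℂ → ℂ)) = (lbox a l t).indicator 1 := by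
  rw [indicator_indicator, lbox_eq, inter_comm]

theorem restrict_null {μ : Measure ℂ} (hμ : μ (Metric.ball (0 : ℂ) 1)ᶜ = 0) (A : Set ℂ) :
    (μ.restrict A) (Metric.ball (0 : ℂ) 1)ᶜ = 0 :=
  nonpos_iff_eq_zero.mp (hμ ▸ Measure.restrict_le_self _)

/-- the testing condition passes to the restrictions to small heights -/
theorem flat_test {σ w : Measure ℂ} {δ C : ℝ} (h : FlatM σ w δ C) :
    TestM (σ.restrict (low δ)) (w.restrict (low δ)) C := by
  intro a l hl hl1
  rw [nrm_restrict w (measurableSet_low δ), Measure.restrict_apply (meas_box hl hl1)]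
  refine (nrm_indicator_le _ _ _).trans ?_
  have h1 : PM (σ.restrict (low δ)) ((box a l).indicator 1) =
      PM σ ((lbox a l δ).indicator 1) := by
    funext z
    rw [PM_restrict σ (measurableSet_low δ), lbox_ind]
  rw [h1]
  exact h a l δ hl hl1 le_rfl

theorem bnd_op {σ w : Measure ℂ} [IsFiniteMeasure σ] [IsFiniteMeasure w]
    {T : Lp ℂ 2 σ →L[ℂ] Lp ℂ 2 w} (hT : IsBerg σ w T) (A : Set ℂ) (hA : MeasurableSet A) {C : ℝ}
    (hC : 0 ≤ C) (h : ∀ F : Lp ℂ 2 σ, eLpNorm (A.indicator (T F)) 2 w ≤ ENNReal.ofReal (C * ‖F‖)) :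
    BndM σ (w.restrict A) C := by
  intro f hf hf2
  rw [nrm_eq] at hf2
  have hm : MemLp f 2 σ := ⟨hf, hf2⟩
  rw [nrm_restrict w hA, nrm_eq, nrm_eq]
  have h1 : A.indicator (PM σ f) =ᵐ[w] A.indicator (T hm.toLp) := by
    filter_upwards [hT hm.toLp] with z hz
    by_cases hzA : z ∈ A
    · rw [indicator_of_mem hzA, indicator_of_mem hzA, hz]
      exact PM_congr hm.coeFn_toLp.symm z
    · rw [indicator_of_notMem hzA, indicator_of_notMem hzA]
  rw [eLpNorm_congr_ae h1]
  refine (h hm.toLp).trans ?_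
  rw [ENNReal.ofReal_mul hC, ofReal_norm_eq, eLpNorm_congr_ae hm.coeFn_toLp]

theorem bnd_norm {σ w : Measure ℂ} [IsFiniteMeasure σ] [IsFiniteMeasure w]
    {T : Lp ℂ 2 σ →L[ℂ] Lp ℂ 2 w} (hT : IsBerg σ w T) : BndM σ w ‖T‖ := by
  have h := bnd_op hT univ MeasurableSet.univ (norm_nonneg T) (fun F => by
    rw [indicator_univ, ← ofReal_norm_eq]
    exact ENNReal.ofReal_le_ofReal (T.le_opNorm F))
  rwa [Measure.restrict_univ] at h

theorem norm_le_of_bnd {σ w : Measure ℂ} [IsFiniteMeasure σ] [IsFiniteMeasure w]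
    {T : Lp ℂ 2 σ →L[ℂ] Lp ℂ 2 w} (hT : IsBerg σ w T) {C : ℝ} (hC : 0 ≤ C) (h : BndM σ w C) :
    ‖T‖ ≤ C := by
  refine T.opNorm_le_bound hC fun f => ?_
  have h1 := h f (Lp.aestronglyMeasurable f) (by rw [nrm_eq]; exact Lp.eLpNorm_lt_top f)
  rw [nrm_eq, nrm_eq, ← eLpNorm_congr_ae (hT f), ← ofReal_norm_eq, ← ofReal_norm_eq,
    ← ENNReal.ofReal_mul hC] at h1
  exact (ENNReal.ofReal_le_ofReal_iff (by positivity)).1 h1

/-- a bounded Bergman operator exists if the inequality holds -/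
theorem exists_op {σ w : Measure ℂ} [IsFiniteMeasure σ] [IsFiniteMeasure w]
    (hσ : σ (Metric.ball (0 : ℂ) 1)ᶜ = 0) (hw : w (Metric.ball (0 : ℂ) 1)ᶜ = 0) {C : ℝ}
    (hC : 0 ≤ C) (h : BndM σ w C) : ∃ T : Lp ℂ 2 σ →L[ℂ] Lp ℂ 2 w, IsBerg σ w T := by
  have hb : ∀ f : Lp ℂ 2 σ, eLpNorm (PM σ f) 2 w ≤ ENNReal.ofReal (C * ‖f‖) := by
    intro f
    have h1 := h f (Lp.aestronglyMeasurable f) (by rw [nrm_eq]; exact Lp.eLpNorm_lt_top f)
    rwa [nrm_eq, nrm_eq, ← ofReal_norm_eq, ← ENNReal.ofReal_mul hC] at h1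
  have hm : ∀ f : Lp ℂ 2 σ, MemLp (PM σ f) 2 w := fun f =>
    ⟨(PM_meas (Lp.aestronglyMeasurable f)).aestronglyMeasurable,
      lt_of_le_of_lt (hb f) ENNReal.ofReal_lt_top⟩
  obtain ⟨c, -, hL1⟩ := L1_le σ
  let T0 : Lp ℂ 2 σ →ₗ[ℂ] Lp ℂ 2 w :=
    { toFun := fun f => (hm f).toLp
      map_add' := by
        intro f g
        apply Lp.ext
        filter_upwards [(hm (f + g)).coeFn_toLp, (hm f).coeFn_toLp, (hm g).coeFn_toLp,
          Lp.coeFn_add (hm f).toLp (hm g).toLp, ae_disc hw] with z h1 h2 h3 h4 h5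
        rw [h1, h4, Pi.add_apply, h2, h3, ← PM_add hσ (hL1 f).1 (hL1 g).1 h5]
        exact PM_congr (Lp.coeFn_add f g) z
      map_smul' := by
        intro k f
        apply Lp.ext
        filter_upwards [(hm (k • f)).coeFn_toLp, (hm f).coeFn_toLp,
          Lp.coeFn_smul k (hm f).toLp] with z h1 h2 h4
        rw [h1, RingHom.id_apply, h4, Pi.smul_apply, h2, smul_eq_mul, ← PM_smul]
        exact PM_congr (Lp.coeFn_smul k f) z }
  refine ⟨T0.mkContinuous C fun f => ?_, fun f => ?_⟩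
  · change ‖(hm f).toLp‖ ≤ _
    rw [Lp.norm_toLp]
    exact ENNReal.toReal_le_of_le_ofReal (by positivity) (hb f)
  · exact (hm f).coeFn_toLp

/-- upper bound of the essential norm -/
theorem ess_upper {σ w : Measure ℂ} [IsFiniteMeasure σ] [IsFiniteMeasure w]
    (hσ : σ (Metric.ball (0 : ℂ) 1)ᶜ = 0) (hw : w (Metric.ball (0 : ℂ) 1)ᶜ = 0)
    {T : Lp ℂ 2 σ →L[ℂ] Lp ℂ 2 w} (hT : IsBerg σ w T) {C δ : ℝ} (hC : 0 ≤ C) (hδ : 0 < δ)
    (hB : BndM (σ.restrict (low δ)) (w.restrict (low δ)) C) : essNorm T ≤ C := by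
  obtain ⟨c, hc, hL1⟩ := L1_le σ
  refine le_of_forall_pos_le_add fun η hη => ?_
  set m : ℝ := (w univ ^ (1 / 2 : ℝ)).toReal with hm
  have hm0 : 0 ≤ m := ENNReal.toReal_nonneg
  have hmt : w univ ^ (1 / 2 : ℝ) ≠ ∞ :=
    ENNReal.rpow_ne_top_of_nonneg (by norm_num) (measure_ne_top _ _)
  set ε : ℝ := η / (2 * m + 1) with hε
  have hε0 : 0 < ε := by positivity
  set r : ℝ := max (1 - δ) 0 with hr
  have hr0 : 0 ≤ r := le_max_right _ _
  have hr1 : r < 1 := max_lt (by linarith) one_pos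
  have hlow : ∀ z ∈ (low δ)ᶜ, ‖z‖ ≤ r := by
    intro z hz
    simp only [low, mem_compl_iff, mem_ofPred_eq, not_le] at hz
    exact le_trans (by linarith) (le_max_left _ _)
  obtain ⟨S1, hS1c, hS1⟩ := approx hσ hw (measurableSet_low δ).compl MeasurableSet.univ hr0 hr1
    (fun z _ ζ hζ h1 _ =>
      (mul_le_of_le_one_left (norm_nonneg _) h1.le).trans (hlow ζ hζ)) hε0
  obtain ⟨S2, hS2c, hS2⟩ := approx hσ hw (measurableSet_low δ) (measurableSet_low δ).compl hr0 hr1
    (fun z hz ζ _ _ h2 =>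
      (mul_le_of_le_one_right (norm_nonneg _) h2.le).trans (hlow z hz)) hε0
  have hS : IsCompactOperator (S1 + S2 : Lp ℂ 2 σ →L[ℂ] Lp ℂ 2 w) := hS1c.add hS2c
  refine (Metric.infDist_le_dist_of_mem (show S1 + S2 ∈
    {S : Lp ℂ 2 σ →L[ℂ] Lp ℂ 2 w | IsCompactOperator S} from hS)).trans ?_
  rw [dist_eq_norm]
  refine ContinuousLinearMap.opNorm_le_bound _ (by positivity) fun f => ?_
  set G1 : ℂ → ℂ := fun z => univ.indicator (PM σ ((low δ)ᶜ.indicator f)) z - S1 f z with hG1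
  set G2 : ℂ → ℂ := fun z => (low δ)ᶜ.indicator (PM σ ((low δ).indicator f)) z - S2 f z with hG2
  set G3 : ℂ → ℂ := (low δ).indicator (PM σ ((low δ).indicator f)) with hG3
  have hind : ∀ A : Set ℂ, MeasurableSet A →
      StronglyMeasurable (PM σ (A.indicator (f : ℂ → ℂ))) := fun A hA =>
    PM_meas ((Lp.aestronglyMeasurable f).indicator hA)
  have hsum : ((T - (S1 + S2)) f : ℂ → ℂ) =ᵐ[w] G1 + G2 + G3 := by
    have e0 : (T - (S1 + S2)) f = T f - (S1 f + S2 f) := rfl
    rw [e0]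
    filter_upwards [Lp.coeFn_sub (T f) (S1 f + S2 f), Lp.coeFn_add (S1 f) (S2 f), hT f,
      ae_disc hw] with z h1 h2 h3 h4
    rw [h1, Pi.sub_apply, h2, Pi.add_apply, h3]
    have e1 : PM σ f z = PM σ ((low δ)ᶜ.indicator f) z + PM σ ((low δ).indicator f) z := by
      rw [← PM_add hσ ((hL1 f).1.indicator (measurableSet_low δ).compl)
        ((hL1 f).1.indicator (measurableSet_low δ)) h4]
      refine PM_congr (Eventually.of_forall fun ζ => ?_) z
      by_cases h : ζ ∈ low δ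
      · simp [indicator_of_mem h, h]
      · simp [indicator_of_notMem h, h]
    rw [e1]
    simp only [Pi.add_apply, hG1, hG2, hG3, indicator_univ]
    by_cases h : z ∈ low δ
    · rw [indicator_of_mem h, indicator_of_notMem (by simpa using h)]
      ring
    · rw [indicator_of_notMem h, indicator_of_mem (by simpa using h)]
      ring
  have b1 : eLpNorm G1 2 w ≤ ENNReal.ofReal (m * (ε * ‖f‖)) := by
    refine (eLpNorm_le_of_ae_bound (hS1 f)).trans (le_of_eq ?_)
    rw [ENNReal.ofReal_mul hm0, hm, ENNReal.ofReal_toReal hmt]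
    congr 2
    norm_num
  have b2 : eLpNorm G2 2 w ≤ ENNReal.ofReal (m * (ε * ‖f‖)) := by
    refine (eLpNorm_le_of_ae_bound (hS2 f)).trans (le_of_eq ?_)
    rw [ENNReal.ofReal_mul hm0, hm, ENNReal.ofReal_toReal hmt]
    congr 2
    norm_num
  have b3 : eLpNorm G3 2 w ≤ ENNReal.ofReal (C * ‖f‖) := by
    have h1 := hB f ((Lp.aestronglyMeasurable f).restrict) (by
      rw [nrm_restrict σ (measurableSet_low δ)]
      refine lt_of_le_of_lt (nrm_indicator_le _ _ _) ?_
      rw [nrm_eq]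
      exact Lp.eLpNorm_lt_top f)
    rw [nrm_restrict w (measurableSet_low δ), nrm_restrict σ (measurableSet_low δ)] at h1
    have e1 : PM (σ.restrict (low δ)) f = PM σ ((low δ).indicator f) := by
      funext z
      exact PM_restrict σ (measurableSet_low δ) f z
    rw [e1, nrm_eq] at h1
    refine h1.trans ?_
    rw [ENNReal.ofReal_mul hC, ofReal_norm_eq, ← nrm_eq]
    gcongr
    exact nrm_indicator_le _ _ _
  have m1 : AEStronglyMeasurable G1 w :=
    (((hind _ (measurableSet_low δ).compl).indicator MeasurableSet.univ).aestronglyMeasurable).sub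
      (Lp.aestronglyMeasurable _)
  have m2 : AEStronglyMeasurable G2 w :=
    (((hind _ (measurableSet_low δ)).indicator
      (measurableSet_low δ).compl).aestronglyMeasurable).sub (Lp.aestronglyMeasurable _)
  have m3 : AEStronglyMeasurable G3 w :=
    ((hind _ (measurableSet_low δ)).indicator (measurableSet_low δ)).aestronglyMeasurable
  have htot : eLpNorm ((T - (S1 + S2)) f) 2 w ≤ ENNReal.ofReal ((C + η) * ‖f‖) := by
    rw [eLpNorm_congr_ae hsum]
    refine (eLpNorm_add_le (m1.add m2) m3 one_le_two).trans ?_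
    refine (add_le_add ((eLpNorm_add_le m1 m2 one_le_two).trans (add_le_add b1 b2)) b3).trans ?_
    rw [← ENNReal.ofReal_add (by positivity) (by positivity),
      ← ENNReal.ofReal_add (by positivity) (by positivity)]
    refine ENNReal.ofReal_le_ofReal ?_
    have h1 : 2 * m * ε ≤ η := by
      rw [hε, mul_div_assoc', div_le_iff₀ (by positivity)]
      nlinarith
    nlinarith [norm_nonneg f, mul_le_mul_of_nonneg_right h1 (norm_nonneg f)]
  rw [Lp.norm_def]
  exact ENNReal.toReal_le_of_le_ofReal (by positivity) htot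

/-- lower bound of the essential norm -/
theorem ess_lower {σ w : Measure ℂ} [IsFiniteMeasure σ] [IsFiniteMeasure w]
    (hσ : σ (Metric.ball (0 : ℂ) 1)ᶜ = 0) (hw : w (Metric.ball (0 : ℂ) 1)ᶜ = 0)
    {T : Lp ℂ 2 σ →L[ℂ] Lp ℂ 2 w} (hT : IsBerg σ w T) {C : ℝ} (hC : essNorm T < C) :
    ∃ δ : ℝ, 0 < δ ∧ FlatM σ w δ C ∧ FlatM w σ δ (2 * C) := by
  have hC0 : 0 < C := lt_of_le_of_lt Metric.infDist_nonneg hC
  obtain ⟨S, hSc, hS⟩ := (Metric.infDist_lt_iff (s := {S : Lp ℂ 2 σ →L[ℂ] Lp ℂ 2 w |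
    IsCompactOperator S}) ⟨0, isCompactOperator_zero⟩).1 hC
  rw [dist_eq_norm] at hS
  have hSc' : IsCompactOperator S := hSc
  set ε : ℝ := C - ‖T - S‖ with hε
  have hε0 : 0 < ε := sub_pos.mpr hS
  obtain ⟨δ1, hδ1, h1⟩ := compact_low' hσ S hSc' hε0
  obtain ⟨δ2, hδ2, h2⟩ := compact_low hw S hSc' hε0
  refine ⟨min δ1 δ2, lt_min hδ1 hδ2, ?_, ?_⟩
  · intro a l t hl hl1 ht
    have hA := meas_lbox (a := a) (t := t) hl hl1
    have hm : MemLp ((lbox a l t).indicator (1 : ℂ → ℂ)) 2 σ :=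
      (memLp_const (1 : ℂ)).indicator hA
    set F : Lp ℂ 2 σ := hm.toLp with hF
    have hlow : (low t).indicator F =ᵐ[σ] F := by
      filter_upwards [hm.coeFn_toLp] with z hz
      by_cases h : z ∈ low t
      · rw [indicator_of_mem h]
      · rw [indicator_of_notMem h, hF, hz, indicator_of_notMem]
        exact fun hc => h hc.2
    have h3 : ‖T F‖ ≤ C * ‖F‖ := by
      have e : T F = (T - S) F + S F := by
        change T F = (T F - S F) + S F
        abel
      calc ‖T F‖ ≤ ‖(T - S) F‖ + ‖S F‖ := by rw [e]; exact norm_add_le _ _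
        _ ≤ ‖T - S‖ * ‖F‖ + ε * ‖F‖ :=
            add_le_add ((T - S).le_opNorm F) (h1 t (ht.trans (min_le_left _ _)) F hlow)
        _ = C * ‖F‖ := by rw [hε]; ring
    have h4 : nrm w (PM σ ((lbox a l t).indicator 1)) = ENNReal.ofReal ‖T F‖ := by
      rw [ofReal_norm_eq, nrm_eq, eLpNorm_congr_ae (hT F)]
      congr 1
      funext z
      exact PM_congr hm.coeFn_toLp.symm z
    have h5 : ENNReal.ofReal ‖F‖ = σ (lbox a l t) ^ (1 / 2 : ℝ) := by
      rw [ofReal_norm_eq, eLpNorm_congr_ae hm.coeFn_toLp, ← nrm_eq, nrm_indicator_one σ hA]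
    rw [h4, ← h5, ← ENNReal.ofReal_mul hC0.le]
    exact ENNReal.ofReal_le_ofReal h3
  · intro a l t hl hl1 ht
    have hB : BndM σ (w.restrict (low t)) C := by
      refine bnd_op hT _ (measurableSet_low t) hC0.le fun F => ?_
      have e : (low t).indicator (T F) =ᵐ[w]
          (low t).indicator ((T - S) F : Lp ℂ 2 w) + (low t).indicator (S F) := by
        have e0 : T F = (T - S) F + S F := by
          change T F = (T F - S F) + S F
          abel
        have e1 := Lp.coeFn_add ((T - S) F) (S F)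
        rw [← e0] at e1
        filter_upwards [e1] with z hz
        by_cases h : z ∈ low t
        · rw [Pi.add_apply, indicator_of_mem h, indicator_of_mem h, indicator_of_mem h, hz,
            Pi.add_apply]
        · simp [indicator_of_notMem h]
      rw [eLpNorm_congr_ae e]
      refine (eLpNorm_add_le ((Lp.aestronglyMeasurable _).indicator (measurableSet_low t))
        ((Lp.aestronglyMeasurable _).indicator (measurableSet_low t)) one_le_two).trans ?_
      have h3 : eLpNorm ((low t).indicator ((T - S) F : Lp ℂ 2 w)) 2 w ≤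
          ENNReal.ofReal (‖T - S‖ * ‖F‖) := by
        refine (eLpNorm_indicator_le _).trans ?_
        rw [← ofReal_norm_eq]
        exact ENNReal.ofReal_le_ofReal ((T - S).le_opNorm F)
      refine (add_le_add h3 (h2 t (ht.trans (min_le_right _ _)) F)).trans ?_
      rw [← ENNReal.ofReal_add (by positivity) (by positivity)]
      refine ENNReal.ofReal_le_ofReal (le_of_eq ?_)
      rw [hε]
      ring
    have h3 := (TM_of_BM hσ (restrict_null hw (low t)) hC0.le hB).2 a l hl hl1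
    rw [Measure.restrict_apply (meas_box hl hl1)] at h3
    have e1 : PM (w.restrict (low t)) ((box a l).indicator 1) =
        PM w ((lbox a l t).indicator 1) := by
      funext z
      rw [PM_restrict w (measurableSet_low t), lbox_ind]
    rw [e1] at h3
    exact h3

end

end Pool.Agent.KS6_66.EN
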