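import Pool.Agent.KS6_66.EN.C

/-!
# The adjoint of the Bergman operator, and the exact lower bounds
-/

set_option autoImplicit false

open MeasureTheory Set Filter
open scoped ENNReal Topology InnerProductSpace

namespace Pool.Agent.KS6_66.EN

noncomputable section

open Pool.Agent.Helper807.BT Pool.Agent.Y308.BQ

/-- functions can be approximated by functions which vanish near the boundary -/
theorem approx_high {μ : Measure ℂ} [IsFiniteMeasure μ] (hμ : μ (Metric.ball (0 : ℂ) 1)ᶜ = 0)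
    (f : Lp ℂ 2 μ) {ε : ℝ} (hε : 0 < ε) : ∃ t : ℝ, 0 < t ∧ ∃ f' : Lp ℂ 2 μ,
      (∀ᵐ x ∂μ, x ∈ low t → f' x = 0) ∧ ‖f - f'‖ ≤ ε := by
  obtain ⟨η, hη, h2⟩ := (Lp.memLp f).eLpNorm_indicator_le one_le_two ENNReal.ofNat_ne_top hε
  obtain ⟨δ, hδ, h3⟩ := low_small hμ (ENNReal.ofReal_pos.mpr hη)
  have hm : MemLp ((low δ)ᶜ.indicator f) 2 μ := (Lp.memLp f).indicator (measurableSet_low δ).compl
  refine ⟨δ, hδ, hm.toLp, ?_, ?_⟩
  · filter_upwards [hm.coeFn_toLp] with x hx hxl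
    rw [hx, indicator_of_notMem (by simpa using hxl)]
  · rw [Lp.norm_def]
    refine ENNReal.toReal_le_of_le_ofReal hε.le ?_
    have e : (f - hm.toLp : Lp ℂ 2 μ) =ᵐ[μ] (low δ).indicator f := by
      filter_upwards [Lp.coeFn_sub f hm.toLp, hm.coeFn_toLp] with x h1 h4
      rw [h1, Pi.sub_apply, h4]
      by_cases h : x ∈ low δ
      · rw [indicator_of_mem h, indicator_of_notMem (by simpa using h), sub_zero]
      · rw [indicator_of_notMem h, indicator_of_mem (by simpa using h), sub_self]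
    rw [eLpNorm_congr_ae e]
    exact h2 _ (measurableSet_low δ) (h3 δ le_rfl)

theorem swap {σ w : Measure ℂ} [IsFiniteMeasure σ] [IsFiniteMeasure w]
    (hw : w (Metric.ball (0 : ℂ) 1)ᶜ = 0) (hσ : σ (Metric.ball (0 : ℂ) 1)ᶜ = 0)
    {T : Lp ℂ 2 σ →L[ℂ] Lp ℂ 2 w} (hT : IsBerg σ w T)
    {T' : Lp ℂ 2 w →L[ℂ] Lp ℂ 2 σ} (hT' : IsBerg w σ T') (g : Lp ℂ 2 w) (f : Lp ℂ 2 σ) {t : ℝ}
    (ht : 0 < t) (hf : ∀ᵐ x ∂σ, x ∈ low t → f x = 0) : ⟪T' g, f⟫_ℂ = ⟪g, T f⟫_ℂ := by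
  obtain ⟨c, _, hL1⟩ := L1_le σ
  obtain ⟨c', _, hL1'⟩ := L1_le w
  have hfi := (hL1 f).1
  have hgi := (hL1' g).1
  set Φ : ℂ → ℂ → ℂ := fun z ζ =>
    (starRingEnd ℂ) (g z) * f ζ / (1 - z * (starRingEnd ℂ) ζ) ^ 2 with hΦ
  have hint : Integrable (Function.uncurry Φ) (w.prod σ) := by
    have h1 : Integrable (fun p : ℂ × ℂ => t⁻¹ ^ 2 * (‖g p.1‖ * ‖f p.2‖)) (w.prod σ) :=
      (hgi.norm.mul_prod hfi.norm).const_mul _
    refine h1.mono' ?_ ?_
    · have m1 : AEMeasurable (fun p : ℂ × ℂ => (starRingEnd ℂ) (g p.1)) (w.prod σ) :=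
        (Complex.continuous_conj.measurable.comp_aemeasurable hgi.1.aemeasurable).comp_fst
      have m2 : AEMeasurable (fun p : ℂ × ℂ => f p.2) (w.prod σ) := hfi.1.aemeasurable.comp_snd
      have m3 : Measurable fun p : ℂ × ℂ => (1 - p.1 * (starRingEnd ℂ) p.2) ^ 2 :=
        (by fun_prop : Continuous fun p : ℂ × ℂ => (1 - p.1 * (starRingEnd ℂ) p.2) ^ 2).measurable
      exact ((m1.mul m2).div m3.aemeasurable).aestronglyMeasurable
    · have a1 : ∀ᵐ p ∂(w.prod σ), ‖p.1‖ < 1 := Measure.quasiMeasurePreserving_fst.ae (ae_disc hw)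
      have a2 : ∀ᵐ p ∂(w.prod σ), p.2 ∈ low t → f p.2 = 0 :=
        Measure.quasiMeasurePreserving_snd.ae hf
      filter_upwards [a1, a2] with p h1 h2
      simp only [Function.uncurry, hΦ]
      by_cases h : p.2 ∈ low t
      · rw [h2 h]
        simp
      · have h3 : t + ‖p.2‖ < 1 := by
          simpa [low] using h
        have h4 : t ≤ ‖1 - p.1 * (starRingEnd ℂ) p.2‖ := by
          have h5 : ‖p.1 * (starRingEnd ℂ) p.2‖ ≤ ‖p.2‖ := by
            rw [norm_mul, RCLike.norm_conj]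
            exact mul_le_of_le_one_left (norm_nonneg _) h1.le
          have h6 := norm_sub_norm_le (1 : ℂ) (p.1 * (starRingEnd ℂ) p.2)
          rw [norm_one] at h6
          linarith
        rw [norm_div, norm_mul, norm_pow, RCLike.norm_conj, div_eq_mul_inv, mul_comm, ← inv_pow]
        gcongr
  have e1 : ⟪g, T f⟫_ℂ = ∫ z, ∫ ζ, Φ z ζ ∂σ ∂w := by
    rw [L2.inner_def]
    refine integral_congr_ae ?_
    filter_upwards [hT f] with z hz
    rw [hz]
    unfold PM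
    rw [RCLike.inner_apply, mul_comm, ← integral_const_mul]
    refine integral_congr_ae (Eventually.of_forall fun ζ => ?_)
    simp only [hΦ]
    rw [mul_div_assoc]
  have e2 : ⟪T' g, f⟫_ℂ = ∫ ζ, ∫ z, Φ z ζ ∂w ∂σ := by
    rw [L2.inner_def]
    refine integral_congr_ae ?_
    filter_upwards [hT' g] with ζ hζ
    rw [hζ]
    unfold PM
    rw [RCLike.inner_apply, ← integral_conj, ← integral_const_mul]
    refine integral_congr_ae (Eventually.of_forall fun z => ?_)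
    simp only [hΦ]
    rw [map_div₀, map_pow, map_sub, map_mul, map_one, RCLike.conj_conj]
    rw [show (starRingEnd ℂ) ζ * z = z * (starRingEnd ℂ) ζ from mul_comm _ _]
    ring
  rw [e1, e2]
  exact (integral_integral_swap hint).symm

/-- the adjoint of the Bergman operator is the Bergman operator -/
theorem adjoint_berg {σ w : Measure ℂ} [IsFiniteMeasure σ] [IsFiniteMeasure w]
    (hσ : σ (Metric.ball (0 : ℂ) 1)ᶜ = 0) (hw : w (Metric.ball (0 : ℂ) 1)ᶜ = 0)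
    {T : Lp ℂ 2 σ →L[ℂ] Lp ℂ 2 w} (hT : IsBerg σ w T) :
    IsBerg w σ (ContinuousLinearMap.adjoint T) := by
  obtain ⟨κ, hκ, H⟩ := realS th ht geoD
  have hB := bnd_norm hT
  obtain ⟨t1, t2⟩ := TM_of_BM hσ hw (norm_nonneg T) hB
  have hmono : ∀ {μ ν : Measure ℂ} {C D : ℝ}, C ≤ D → TestM μ ν C → TestM μ ν D := by
    intro μ ν C D hCD h a l hl hl1
    exact (h a l hl hl1).trans (mul_le_mul_left (ENNReal.ofReal_le_ofReal hCD) _)
  have hn := norm_nonneg T
  have hB' := BM_of_TM hκ H hw hσ (show 0 < 2 * ‖T‖ + 1 by positivity)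
    (hmono (by linarith) t2) (hmono (by linarith) t1)
  obtain ⟨T', hT'⟩ := exists_op hw hσ (by positivity) hB'
  have key : T' = ContinuousLinearMap.adjoint T := by
    rw [ContinuousLinearMap.eq_adjoint_iff]
    intro g f
    have hz : ∀ ε : ℝ, 0 < ε →
        ‖⟪T' g, f⟫_ℂ - ⟪g, T f⟫_ℂ‖ ≤ (‖T' g‖ + ‖g‖ * ‖T‖) * ε := by
      intro ε hε
      obtain ⟨t, ht, f', hf', hff⟩ := approx_high hσ f hε
      have h1 := swap hw hσ hT hT' g f' ht hf'
      have h2 : ⟪T' g, f⟫_ℂ - ⟪g, T f⟫_ℂ = ⟪T' g, f - f'⟫_ℂ - ⟪g, T (f - f')⟫_ℂ := by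
        rw [map_sub, inner_sub_right, inner_sub_right, h1]
        ring
      rw [h2]
      calc ‖⟪T' g, f - f'⟫_ℂ - ⟪g, T (f - f')⟫_ℂ‖
          ≤ ‖⟪T' g, f - f'⟫_ℂ‖ + ‖⟪g, T (f - f')⟫_ℂ‖ := norm_sub_le _ _
        _ ≤ ‖T' g‖ * ‖f - f'‖ + ‖g‖ * ‖T (f - f')‖ :=
            add_le_add (norm_inner_le_norm _ _) (norm_inner_le_norm _ _)
        _ ≤ ‖T' g‖ * ε + ‖g‖ * (‖T‖ * ε) := by
            have h3 : ‖T (f - f')‖ ≤ ‖T‖ * ε := (T.le_opNorm _).trans (by gcongr)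
            gcongr
        _ = _ := by ring
    by_contra hne
    have hpos : 0 < ‖⟪T' g, f⟫_ℂ - ⟪g, T f⟫_ℂ‖ := norm_pos_iff.mpr (sub_ne_zero.mpr hne)
    set M : ℝ := ‖T' g‖ + ‖g‖ * ‖T‖ with hM
    have hM0 : 0 ≤ M := by positivity
    have h4 := hz (‖⟪T' g, f⟫_ℂ - ⟪g, T f⟫_ℂ‖ / (2 * (M + 1))) (by positivity)
    have h5 : M * (‖⟪T' g, f⟫_ℂ - ⟪g, T f⟫_ℂ‖ / (2 * (M + 1))) ≤
        ‖⟪T' g, f⟫_ℂ - ⟪g, T f⟫_ℂ‖ / 2 := by
      rw [mul_div_assoc', div_le_div_iff₀ (by positivity) (by norm_num)]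
      nlinarith
    linarith
  rw [← key]
  exact hT'

/-- testing inequalities on sets near the boundary follow from the smallness of the operator there -/
theorem test_of_small {σ w : Measure ℂ} [IsFiniteMeasure σ]
    {T : Lp ℂ 2 σ →L[ℂ] Lp ℂ 2 w} (hT : IsBerg σ w T) {R : Set ℂ} (hR : MeasurableSet R) {C t : ℝ}
    (hC : 0 ≤ C) (hRt : R ⊆ low t)
    (h : ∀ F : Lp ℂ 2 σ, (low t).indicator F =ᵐ[σ] F → ‖T F‖ ≤ C * ‖F‖) :
    nrm w (PM σ (R.indicator 1)) ≤ ENNReal.ofReal C * σ R ^ (1 / 2 : ℝ) := by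
  have hm : MemLp (R.indicator (1 : ℂ → ℂ)) 2 σ := (memLp_const (1 : ℂ)).indicator hR
  have hlow : (low t).indicator hm.toLp =ᵐ[σ] hm.toLp := by
    filter_upwards [hm.coeFn_toLp] with z hz
    by_cases h : z ∈ low t
    · rw [indicator_of_mem h]
    · rw [indicator_of_notMem h, hz, indicator_of_notMem]
      exact fun hc => h (hRt hc)
  have h4 : nrm w (PM σ (R.indicator 1)) = ENNReal.ofReal ‖T hm.toLp‖ := by
    rw [ofReal_norm_eq, nrm_eq, eLpNorm_congr_ae (hT hm.toLp)]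
    congr 1
    funext z
    exact PM_congr hm.coeFn_toLp.symm z
  have h5 : ENNReal.ofReal ‖hm.toLp‖ = σ R ^ (1 / 2 : ℝ) := by
    rw [ofReal_norm_eq, eLpNorm_congr_ae hm.coeFn_toLp, ← nrm_eq, nrm_indicator_one σ hR]
  rw [h4, ← h5, ← ENNReal.ofReal_mul hC]
  exact ENNReal.ofReal_le_ofReal (h _ hlow)

/-- lower bound of the essential norm -/
theorem ess_lower' {σ w : Measure ℂ} [IsFiniteMeasure σ] [IsFiniteMeasure w]
    (hσ : σ (Metric.ball (0 : ℂ) 1)ᶜ = 0) (hw : w (Metric.ball (0 : ℂ) 1)ᶜ = 0)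
    {T : Lp ℂ 2 σ →L[ℂ] Lp ℂ 2 w} (hT : IsBerg σ w T) {C : ℝ} (hC : essNorm T < C) :
    ∃ δ : ℝ, 0 < δ ∧ ∀ t ≤ δ, ∀ R : Set ℂ, MeasurableSet R → R ⊆ low t →
      nrm w (PM σ (R.indicator 1)) ≤ ENNReal.ofReal C * σ R ^ (1 / 2 : ℝ) ∧
      nrm σ (PM w (R.indicator 1)) ≤ ENNReal.ofReal C * w R ^ (1 / 2 : ℝ) := by
  have hC0 : 0 < C := lt_of_le_of_lt Metric.infDist_nonneg hC
  obtain ⟨S, hSc, hS⟩ := (Metric.infDist_lt_iff (s := {S : Lp ℂ 2 σ →L[ℂ] Lp ℂ 2 w |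
    IsCompactOperator S}) ⟨0, isCompactOperator_zero⟩).1 hC
  rw [dist_eq_norm] at hS
  have hSc' : IsCompactOperator S := hSc
  set ε : ℝ := C - ‖T - S‖ with hε
  have hε0 : 0 < ε := sub_pos.mpr hS
  obtain ⟨δ1, hδ1, h1⟩ := compact_low' hσ S hSc' hε0
  obtain ⟨δ2, hδ2, h2⟩ := compact_low hw S hSc' hε0
  refine ⟨min δ1 δ2, lt_min hδ1 hδ2, ?_⟩
  intro t ht R hR hRt
  constructor
  · refine test_of_small hT hR hC0.le hRt fun F hF => ?_
    have e : T F = (T - S) F + S F := by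
      change T F = (T F - S F) + S F
      abel
    calc ‖T F‖ ≤ ‖(T - S) F‖ + ‖S F‖ := by rw [e]; exact norm_add_le _ _
      _ ≤ ‖T - S‖ * ‖F‖ + ε * ‖F‖ :=
          add_le_add ((T - S).le_opNorm F) (h1 t (ht.trans (min_le_left _ _)) F hF)
      _ = C * ‖F‖ := by rw [hε]; ring
  · have hB : ∀ F : Lp ℂ 2 σ, eLpNorm ((low t).indicator (T F)) 2 w ≤
        ENNReal.ofReal (C * ‖F‖) := by
      intro F
      have e : (low t).indicator (T F) =ᵐ[w]
          (low t).indicator ((T - S) F : Lp ℂ 2 w) + (low t).indicator (S F) := by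
        have e0 : T F = (T - S) F + S F := by
          change T F = (T F - S F) + S F
          abel
        have e1 := Lp.coeFn_add ((T - S) F) (S F)
        rw [← e0] at e1
        filter_upwards [e1] with z hz
        by_cases h : z ∈ low t
        · rw [Pi.add_apply, indicator_of_mem h, indicator_of_mem h, indicator_of_mem h, hz,
            Pi.add_apply]
        · simp [indicator_of_notMem h]
      rw [eLpNorm_congr_ae e]
      refine (eLpNorm_add_le ((Lp.aestronglyMeasurable _).indicator (measurableSet_low t))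
        ((Lp.aestronglyMeasurable _).indicator (measurableSet_low t)) one_le_two).trans ?_
      have h3 : eLpNorm ((low t).indicator ((T - S) F : Lp ℂ 2 w)) 2 w ≤
          ENNReal.ofReal (‖T - S‖ * ‖F‖) := by
        refine (eLpNorm_indicator_le _).trans ?_
        rw [← ofReal_norm_eq]
        exact ENNReal.ofReal_le_ofReal ((T - S).le_opNorm F)
      refine (add_le_add h3 (h2 t (ht.trans (min_le_right _ _)) F)).trans ?_
      rw [← ENNReal.ofReal_add (by positivity) (by positivity)]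
      refine ENNReal.ofReal_le_ofReal (le_of_eq ?_)
      rw [hε]
      ring
    refine test_of_small (adjoint_berg hσ hw hT) hR hC0.le hRt fun F hF => ?_
    set G := ContinuousLinearMap.adjoint T F with hG
    have hm : MemLp ((low t).indicator (T G)) 2 w := (Lp.memLp _).indicator (measurableSet_low t)
    have hgn : ‖hm.toLp‖ ≤ C * ‖G‖ := by
      rw [Lp.norm_toLp]
      exact ENNReal.toReal_le_of_le_ofReal (by positivity) (hB G)
    have h3 : ⟪F, T G⟫_ℂ = ⟪F, hm.toLp⟫_ℂ := by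
      rw [L2.inner_def, L2.inner_def]
      refine integral_congr_ae ?_
      filter_upwards [hF, hm.coeFn_toLp] with x hx hgx
      rw [hgx]
      by_cases hxt : x ∈ low t
      · rw [indicator_of_mem hxt]
      · rw [indicator_of_notMem hxt] at hx ⊢
        rw [← hx]
        simp
    have h4 : ⟪G, G⟫_ℂ = ⟪F, T G⟫_ℂ := by
      conv_lhs => rw [hG]
      rw [ContinuousLinearMap.adjoint_inner_left]
    have h5 : ‖G‖ * ‖G‖ ≤ ‖F‖ * (C * ‖G‖) := by
      calc ‖G‖ * ‖G‖ = ‖⟪G, G⟫_ℂ‖ := by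
            rw [inner_self_eq_norm_sq_to_K, ← sq]
            simp
        _ = ‖⟪F, hm.toLp⟫_ℂ‖ := by rw [h4, h3]
        _ ≤ ‖F‖ * ‖hm.toLp‖ := norm_inner_le_norm _ _
        _ ≤ ‖F‖ * (C * ‖G‖) := by gcongr
    rcases eq_or_lt_of_le (norm_nonneg G) with h6 | h6
    · rw [← h6]
      positivity
    · have h7 : ‖G‖ * ‖G‖ ≤ (C * ‖F‖) * ‖G‖ := by linarith
      exact le_of_mul_le_mul_right h7 h6

end

end Pool.Agent.KS6_66.EN
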