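import Pool.Agent.KS6_66.EN.D

/-!
# The main theorem, in terms of `Lp`
-/

set_option autoImplicit false

open MeasureTheory Set Filter
open scoped ENNReal Topology

namespace Pool.Agent.KS6_66.EN

open Pool.Agent.Helper807.BT Pool.Agent.Y308.BQ

theorem test_mono {μ ν : Measure ℂ} {C D : ℝ} (hCD : C ≤ D) (h : TestM μ ν C) : TestM μ ν D := by
  intro a l hl hl1
  exact (h a l hl hl1).trans (mul_le_mul_left (ENNReal.ofReal_le_ofReal hCD) _)

theorem sm_null (v : ℂ → ℝ) : sm v (Metric.ball (0 : ℂ) 1)ᶜ = 0 := by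
  have h := sm_ball v
  rw [ae_iff] at h
  refine measure_mono_null (fun z hz => ?_) h
  simpa using hz

/-- `μ` is a finite measure carried by the open unit disc. -/
def OnDisc (μ : Measure ℂ) : Prop := IsFiniteMeasure μ ∧ μ (Metric.ball (0 : ℂ) 1)ᶜ = 0

/-- The two testing conditions on the Carleson boxes, with constant `C`. -/
def Test (σ w : Measure ℂ) (C : ℝ) : Prop := TestM σ w C ∧ TestM w σ C

/-- The two testing conditions on the parts of height at most `t ≤ δ` of the Carleson boxes, with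
constant `C`. -/
def Flat (σ w : Measure ℂ) (δ C : ℝ) : Prop := FlatM σ w δ C ∧ FlatM w σ δ C

/-- The two testing conditions on all Borel sets whose points have height at most `δ`, with
constant `C`. -/
def AllSets (σ w : Measure ℂ) (δ C : ℝ) : Prop :=
  ∀ R : Set ℂ, MeasurableSet R → R ⊆ {z | 1 - ‖z‖ ≤ δ} →
    nrm w (PM σ (R.indicator 1)) ≤ ENNReal.ofReal C * σ R ^ (1 / 2 : ℝ) ∧
    nrm σ (PM w (R.indicator 1)) ≤ ENNReal.ofReal C * w R ^ (1 / 2 : ℝ)

/-- The norm, the essential norm and the compactness of the Bergman operator `T`. -/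
def Theory (κ : ℝ) {σ w : Measure ℂ} (T : Lp ℂ 2 σ →L[ℂ] Lp ℂ 2 w) : Prop :=
  (Test σ w ‖T‖ ∧ ∀ C : ℝ, 0 < C → Test σ w C → ‖T‖ ≤ κ * C) ∧
  (∀ C : ℝ, essNorm T < C → ∃ δ : ℝ, 0 < δ ∧ AllSets σ w δ C) ∧
  (∀ C : ℝ, 0 < C → (∃ δ : ℝ, 0 < δ ∧ Flat σ w δ C) → essNorm T ≤ κ * C) ∧
  (IsCompactOperator T ↔ ∀ C : ℝ, 0 < C → ∃ δ : ℝ, 0 < δ ∧ Flat σ w δ C)

/-- **Two-weight theory of the Bergman projection.** -/
theorem main : ∃ κ : ℝ, 0 < κ ∧
    -- finite measures on the open unit disc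
    (∀ σ w : Measure ℂ, OnDisc σ → OnDisc w →
      ((∃ T : Lp ℂ 2 σ →L[ℂ] Lp ℂ 2 w, IsBerg σ w T) ↔ ∃ C : ℝ, Test σ w C) ∧
      ∀ T : Lp ℂ 2 σ →L[ℂ] Lp ℂ 2 w, IsBerg σ w T →
        IsBerg w σ (ContinuousLinearMap.adjoint T) ∧ Theory κ T) ∧
    -- weights on the disc
    (∀ w σ : ℂ → ℝ, IsWeight w → IsWeight σ →
      (CondB w σ ↔ CondT w σ) ∧
      (CondB w σ → OnDisc (sm σ) ∧ OnDisc (sm w) ∧
        (∀ F : ℂ → ℂ, normL2 σ F = nrm (sm σ) F ∧ normL2 w F = nrm (sm w) F) ∧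
        (∀ (f : ℂ → ℂ) (z : ℂ), ‖z‖ < 1 →
          PM (sm σ) f z = bergP (fun ζ => (σ ζ : ℂ) * f ζ) z) ∧
        ∃ T : Lp ℂ 2 (sm σ) →L[ℂ] Lp ℂ 2 (sm w), IsBerg (sm σ) (sm w) T)) := by
  obtain ⟨κ, hκ, H⟩ := realS th ht geoD
  have hop : ∀ σ w : Measure ℂ, IsFiniteMeasure σ → IsFiniteMeasure w →
      σ (Metric.ball (0 : ℂ) 1)ᶜ = 0 → w (Metric.ball (0 : ℂ) 1)ᶜ = 0 →
      (∃ C : ℝ, TestM σ w C ∧ TestM w σ C) →
      ∃ T : Lp ℂ 2 σ →L[ℂ] Lp ℂ 2 w, IsBerg σ w T := by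
    rintro σ w _ _ hσ hw ⟨C, h1, h2⟩
    have hB := BM_of_TM hκ H hσ hw (show 0 < max C 1 by positivity)
      (test_mono (le_max_left _ _) h1) (test_mono (le_max_left _ _) h2)
    exact exists_op hσ hw (by positivity) hB
  refine ⟨2 * κ + 1, by linarith, ?_, ?_⟩
  · rintro σ w ⟨_, hσ⟩ ⟨_, hw⟩
    have htest : ∀ (μ ν : Measure ℂ) (_ : IsFiniteMeasure μ) (_ : IsFiniteMeasure ν)
        (_ : μ (Metric.ball (0 : ℂ) 1)ᶜ = 0) (_ : ν (Metric.ball (0 : ℂ) 1)ᶜ = 0)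
        (T : Lp ℂ 2 μ →L[ℂ] Lp ℂ 2 ν), IsBerg μ ν T → TestM μ ν ‖T‖ := by
      intro μ ν _ _ hμ hν T hT
      exact (TM_of_BM hμ hν (norm_nonneg T) (bnd_norm hT)).1
    have hadjn : ∀ T : Lp ℂ 2 σ →L[ℂ] Lp ℂ 2 w, IsBerg σ w T → TestM w σ ‖T‖ := by
      intro T hT
      have h := htest w σ inferInstance inferInstance hw hσ _ (adjoint_berg hσ hw hT)
      rwa [LinearIsometryEquiv.norm_map] at h
    refine ⟨⟨?_, hop σ w inferInstance inferInstance hσ hw⟩, ?_⟩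
    · rintro ⟨T, hT⟩
      exact ⟨‖T‖, htest σ w inferInstance inferInstance hσ hw T hT, hadjn T hT⟩
    · intro T hT
      have hupper : ∀ C : ℝ, 0 < C → (∃ δ : ℝ, 0 < δ ∧ FlatM σ w δ C ∧ FlatM w σ δ C) →
          essNorm T ≤ (2 * κ + 1) * C := by
        rintro C hC ⟨δ, hδ, h1, h2⟩
        exact ess_upper hσ hw hT (by positivity) hδ
          (BM_of_TM hκ H (restrict_null hσ _) (restrict_null hw _) hC (flat_test h1) (flat_test h2))
      have hlower : ∀ C : ℝ, essNorm T < C → ∃ δ : ℝ, 0 < δ ∧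
          ∀ R : Set ℂ, MeasurableSet R → R ⊆ {z | 1 - ‖z‖ ≤ δ} →
            nrm w (PM σ (R.indicator 1)) ≤ ENNReal.ofReal C * σ R ^ (1 / 2 : ℝ) ∧
            nrm σ (PM w (R.indicator 1)) ≤ ENNReal.ofReal C * w R ^ (1 / 2 : ℝ) := by
        intro C hC
        obtain ⟨δ, hδ, h⟩ := ess_lower' hσ hw hT hC
        exact ⟨δ, hδ, h δ le_rfl⟩
      refine ⟨adjoint_berg hσ hw hT, ⟨⟨htest σ w inferInstance inferInstance hσ hw T hT,
        hadjn T hT⟩, ?_⟩, hlower, hupper, ?_⟩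
      · rintro C hC ⟨h1, h2⟩
        exact norm_le_of_bnd hT (by positivity) (BM_of_TM hκ H hσ hw hC h1 h2)
      · constructor
        · intro hc C hC
          have h0 : essNorm T = 0 :=
            Metric.infDist_zero_of_mem (s := {S : Lp ℂ 2 σ →L[ℂ] Lp ℂ 2 w | IsCompactOperator S}) hc
          obtain ⟨δ, hδ, h⟩ := hlower C (by rw [h0]; exact hC)
          refine ⟨δ, hδ, fun a l t hl hl1 ht => (h _ (meas_lbox hl hl1) ?_).1,
            fun a l t hl hl1 ht => (h _ (meas_lbox hl hl1) ?_).2⟩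
          · exact fun z hz => le_trans hz.2 ht
          · exact fun z hz => le_trans hz.2 ht
        · intro h
          have h0 : essNorm T = 0 := by
            refine le_antisymm (le_of_forall_pos_le_add fun ε hε => ?_) Metric.infDist_nonneg
            have h1 := hupper (ε / (2 * κ + 1)) (by positivity) (h _ (by positivity))
            have h2 : (2 * κ + 1) * (ε / (2 * κ + 1)) = ε := by
              field_simp
            linarith
          have hcl : IsClosed {S : Lp ℂ 2 σ →L[ℂ] Lp ℂ 2 w | IsCompactOperator S} :=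
            isClosed_setOfPred_isCompactOperator
          exact (hcl.mem_iff_infDist_zero ⟨0, isCompactOperator_zero⟩).2 h0
  · intro w σ hw hσ
    refine ⟨B_iff_T w σ hw hσ, fun hB => ?_⟩
    obtain ⟨C0, hT⟩ := (B_iff_T w σ hw hσ).1 hB
    have harc1 := isArc_harc 0 1 one_pos le_rfl
    have iσ : Integrable σ areaD := weight_integrable (hT _ _ harc1).1.1
    have iw : Integrable w areaD := weight_integrable (hT _ _ harc1).2.1
    have f1 := finite_sm iσ
    have f2 := finite_sm iw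
    have hPM : ∀ (f : ℂ → ℂ) (z : ℂ), ‖z‖ < 1 →
        PM (sm σ) f z = bergP (fun ζ => (σ ζ : ℂ) * f ζ) z := by
      intro f z hz
      rw [PM_eq (sm_null σ) f hz, PopC_disc hσ f hz]
    refine ⟨⟨f1, sm_null σ⟩, ⟨f2, sm_null w⟩, fun F => ⟨normL2_eq hσ F, normL2_eq hw F⟩, hPM, ?_⟩
    have c0 : 0 ≤ max C0 1 := le_trans zero_le_one (le_max_right _ _)
    have t1 : Testing th ht (sm σ) (sm w) (max C0 1 ^ 2) :=
      testing_of hσ hw _ c0 (fun I l hI => (hT I l hI).1.2.trans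
        (mul_le_mul_left (ENNReal.ofReal_le_ofReal (le_max_left _ _)) _))
    have t2 : Testing th ht (sm w) (sm σ) (max C0 1 ^ 2) :=
      testing_of hw hσ _ c0 (fun I l hI => (hT I l hI).2.2.trans
        (mul_le_mul_left (ENNReal.ofReal_le_ofReal (le_max_left _ _)) _))
    refine hop _ _ f1 f2 (sm_null σ) (sm_null w) ⟨max C0 1, ?_, ?_⟩
    · intro a l hl hl1
      rw [test_conv' (sm_null σ) (sm_null w) hl hl1, box_meas (sm_null σ) hl hl1]
      exact half_of_sq c0 (t1 a l hl hl1)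
    · intro a l hl hl1
      rw [test_conv' (sm_null w) (sm_null σ) hl hl1, box_meas (sm_null w) hl hl1]
      exact half_of_sq c0 (t2 a l hl hl1)

end Pool.Agent.KS6_66.EN
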